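import Pool.Agent.H462R2.PiE2

set_option autoImplicit false

namespace Pool.Agent.Q258.PiE

open Pool.Agent.H301R2.SSE Pool.Agent.H340R2 Pool.Agent.H462R2.PiE

/-- three independent columns `y j` with `y j` and `b * y j` in the space of linear forms -/
theorem col (b : ℝ) (hb : Transcendental ℚ b) (y : Fin 3 → ℂ)
    (hy : ∀ c : Fin 3 → ℂ, (∀ j, IsAlgebraic ℚ (c j)) → ∑ j, c j * y j = 0 → ∀ j, c j = 0)
    (h0 : ∀ j, y j ∈ Lt) (h1 : ∀ j, ((b : ℝ) : ℂ) * y j ∈ Lt) : False := by
  refine strong_six ![1, ((b : ℝ) : ℂ)] y ?_ hy ?_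
  · intro a c ha hc hac
    exact one_indep b hb a c ha hc hac
  · intro i j
    fin_cases i
    · simpa using h0 j
    · simpa using h1 j

theorem lin2c {w : Fin 2 → ℝ} (h : LinearIndependent ℚ w) :
    LinearIndependent ℚ (fun i => ((w i : ℝ) : ℂ)) :=
  h.map' (Complex.ofRealCLM.toLinearMap.restrictScalars ℚ) (by
    rw [LinearMap.ker_eq_bot]
    exact Complex.ofReal_injective)

/-- Baker for `1, w 0, w 1` -/
theorem baker_one {w : Fin 2 → ℝ} (h : LinearIndependent ℚ w)
    (hw : ∀ i, IsAlgebraic ℚ (Complex.exp ((w i : ℝ) : ℂ))) (c₀ c₁ c₂ : ℂ)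
    (h0 : IsAlgebraic ℚ c₀) (h1 : IsAlgebraic ℚ c₁) (h2 : IsAlgebraic ℚ c₂)
    (hs : c₀ + c₁ * ((w 0 : ℝ) : ℂ) + c₂ * ((w 1 : ℝ) : ℂ) = 0) : c₀ = 0 ∧ c₁ = 0 ∧ c₂ = 0 := by
  have := Pool.Agent.H297R2.baker_inhom (fun i => ((w i : ℝ) : ℂ)) hw (lin2c h) c₀ h0 ![c₁, c₂]
    (by
      intro i
      fin_cases i
      · exact h1
      · exact h2) (by
      rw [Fin.sum_univ_two]
      simp only [Matrix.cons_val_zero, Matrix.cons_val_one]
      linear_combination hs)
  exact ⟨this.1, this.2 0, this.2 1⟩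

/-- Baker for `π + β, w 0, w 1` -/
theorem baker_pi {w : Fin 2 → ℝ} (h : LinearIndependent ℚ w)
    (hw : ∀ i, IsAlgebraic ℚ (Complex.exp ((w i : ℝ) : ℂ))) (β c₀ c₁ c₂ : ℂ)
    (hβ : IsAlgebraic ℚ β)
    (h0 : IsAlgebraic ℚ c₀) (h1 : IsAlgebraic ℚ c₁) (h2 : IsAlgebraic ℚ c₂)
    (hs : c₀ * ((Real.pi : ℂ) + β) + c₁ * ((w 0 : ℝ) : ℂ) + c₂ * ((w 1 : ℝ) : ℂ) = 0) :
    c₀ = 0 ∧ c₁ = 0 ∧ c₂ = 0 := by
  have hω : LinearIndependent ℚ ![(Real.pi : ℂ) * Complex.I, ((w 0 : ℝ) : ℂ), ((w 1 : ℝ) : ℂ)] := by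
    apply lin3
    convert lin2c h using 1
    ext i
    fin_cases i <;> rfl
  have hfin := Pool.Agent.H297R2.baker_inhom (ι := Fin 3)
    ![(Real.pi : ℂ) * Complex.I, ((w 0 : ℝ) : ℂ), ((w 1 : ℝ) : ℂ)]
    (by
      intro i
      fin_cases i
      · show IsAlgebraic ℚ (Complex.exp ((Real.pi : ℂ) * Complex.I))
        rw [Complex.exp_pi_mul_I]
        exact isAlgebraic_one.neg
      · exact hw 0
      · exact hw 1) hω (c₀ * β) (h0.mul hβ)
    ![-Complex.I * c₀, c₁, c₂] (by
      intro i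
      fin_cases i
      · exact (LW.isAlgebraic_I.neg).mul h0
      · exact h1
      · exact h2) (by
      rw [Fin.sum_univ_three]
      simp only [Matrix.cons_val_zero, Matrix.cons_val_one, Matrix.cons_val]
      have hII := Complex.I_mul_I
      linear_combination hs - c₀ * (Real.pi : ℂ) * hII)
  have h3 := hfin.2 0
  simp only [Matrix.cons_val_zero] at h3
  refine ⟨?_, hfin.2 1, hfin.2 2⟩
  rcases mul_eq_zero.mp h3 with h4 | h4
  · exact absurd h4 (neg_ne_zero.mpr Complex.I_ne_zero)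
  · exact h4

/-- `1 ∉ W` for `e` -/
theorem main_e {w : Fin 2 → ℝ} (h : LinearIndependent ℚ w)
    (hw : ∀ i, IsAlgebraic ℚ (Complex.exp ((w i : ℝ) : ℂ)))
    (hew : ∀ i, ((Real.exp 1 : ℝ) : ℂ) * ((w i : ℝ) : ℂ) ∈ Lt) (β l : ℂ) (hβ : IsAlgebraic ℚ β)
    (hl : IsAlgebraic ℚ (Complex.exp l)) :
    Transcendental ℚ ((Real.exp 1 : ℂ) + β * l) ∧
    Transcendental ℚ ((Real.exp 1 : ℂ) * ((Real.pi : ℂ) + β)) := by
  have hb : Transcendental ℚ (Real.exp 1) := LW.transcendental_exp_one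
  constructor
  · intro halg
    refine col (Real.exp 1) hb ![1, ((w 0 : ℝ) : ℂ), ((w 1 : ℝ) : ℂ)] ?_ ?_ ?_
    · intro c hc hs
      rw [Fin.sum_univ_three] at hs
      simp only [Matrix.cons_val_zero, Matrix.cons_val_one, Matrix.cons_val, mul_one] at hs
      have := baker_one h hw (c 0) (c 1) (c 2) (hc 0) (hc 1) (hc 2) hs
      intro j
      fin_cases j
      · exact this.1
      · exact this.2.1
      · exact this.2.2
    · intro j
      fin_cases j
      · exact Lt_one
      · exact Lt_log (hw 0)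
      · exact Lt_log (hw 1)
    · intro j
      fin_cases j
      · have h1 : ((Real.exp 1 : ℝ) : ℂ) * 1 = ((Real.exp 1 : ℂ) + β * l) - β * l := by ring
        show ((Real.exp 1 : ℝ) : ℂ) * 1 ∈ Lt
        rw [h1]
        exact Lt.sub_mem (Lt_alg halg) (Lt_mul hβ (Lt_log hl))
      · exact hew 0
      · exact hew 1
  · intro halg
    refine col (Real.exp 1) hb ![(Real.pi : ℂ) + β, ((w 0 : ℝ) : ℂ), ((w 1 : ℝ) : ℂ)] ?_ ?_ ?_
    · intro c hc hs
      rw [Fin.sum_univ_three] at hs
      simp only [Matrix.cons_val_zero, Matrix.cons_val_one, Matrix.cons_val] at hs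
      have := baker_pi h hw β (c 0) (c 1) (c 2) hβ (hc 0) (hc 1) (hc 2) hs
      intro j
      fin_cases j
      · exact this.1
      · exact this.2.1
      · exact this.2.2
    · intro j
      fin_cases j
      · exact Lt.add_mem pi_mem (Lt_alg hβ)
      · exact Lt_log (hw 0)
      · exact Lt_log (hw 1)
    · intro j
      fin_cases j
      · exact Lt_alg halg
      · exact hew 0
      · exact hew 1

/-- the space for `π` is at most two dimensional and contains `1` -/
theorem main_pi {w : Fin 2 → ℝ} (h : LinearIndependent ℚ w)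
    (hw : ∀ i, IsAlgebraic ℚ (Complex.exp ((w i : ℝ) : ℂ)))
    (hew : ∀ i, ((Real.pi : ℝ) : ℂ) * ((w i : ℝ) : ℂ) ∈ Lt) : False := by
  refine col Real.pi LW.transcendental_pi ![1, ((w 0 : ℝ) : ℂ), ((w 1 : ℝ) : ℂ)] ?_ ?_ ?_
  · intro c hc hs
    rw [Fin.sum_univ_three] at hs
    simp only [Matrix.cons_val_zero, Matrix.cons_val_one, Matrix.cons_val, mul_one] at hs
    have := baker_one h hw (c 0) (c 1) (c 2) (hc 0) (hc 1) (hc 2) hs
    intro j
    fin_cases j
    · exact this.1
    · exact this.2.1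
    · exact this.2.2
  · intro j
    fin_cases j
    · exact Lt_one
    · exact Lt_log (hw 0)
    · exact Lt_log (hw 1)
  · intro j
    fin_cases j
    · show ((Real.pi : ℝ) : ℂ) * 1 ∈ Lt
      rw [mul_one]
      exact pi_mem
    · exact hew 0
    · exact hew 1

/-- `π²` is not a linear form when `n ^ π` is algebraic -/
theorem pi_sq (n : ℕ) (hn : 2 ≤ n) (h : IsAlgebraic ℚ ((n : ℝ) ^ Real.pi)) (β l : ℂ)
    (hβ : IsAlgebraic ℚ β) (hl : IsAlgebraic ℚ (Complex.exp l)) :
    Transcendental ℚ ((Real.pi : ℂ) ^ 2 + β * l) := by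
  intro halg
  have hpos : (0 : ℝ) < n := by positivity
  have hexp : IsAlgebraic ℚ (Complex.exp ((Real.log n : ℝ) : ℂ)) := by
    rw [← Complex.ofReal_exp, Real.exp_log hpos]
    exact_mod_cast isAlgebraic_natCast n
  refine col Real.pi LW.transcendental_pi ![1, (Real.pi : ℂ), ((Real.log n : ℝ) : ℂ)] ?_ ?_ ?_
  · intro c hc hs
    rw [Fin.sum_univ_three] at hs
    simp only [Matrix.cons_val_zero, Matrix.cons_val_one, Matrix.cons_val, mul_one] at hs
    have hlog : Real.log n ≠ 0 := by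
      have : (1 : ℝ) < n := by exact_mod_cast (by omega : 1 < n)
      exact (Real.log_pos this).ne'
    have hω : LinearIndependent ℚ ![(Real.pi : ℂ) * Complex.I, ((Real.log n : ℝ) : ℂ)] := by
      generalize Real.log n = L at hlog
      rw [Fintype.linearIndependent_iff]
      intro g hg
      rw [Fin.sum_univ_two] at hg
      simp only [Matrix.cons_val_zero, Matrix.cons_val_one, Rat.smul_def] at hg
      have him := congrArg Complex.im hg
      have hre := congrArg Complex.re hg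
      simp [Real.pi_ne_zero] at him
      simp [hlog] at hre
      intro i
      fin_cases i
      · exact him
      · exact hre
    have hfin := Pool.Agent.H297R2.baker_inhom (ι := Fin 2)
      ![(Real.pi : ℂ) * Complex.I, ((Real.log n : ℝ) : ℂ)]
      (by
        intro i
        fin_cases i
        · show IsAlgebraic ℚ (Complex.exp ((Real.pi : ℂ) * Complex.I))
          rw [Complex.exp_pi_mul_I]
          exact isAlgebraic_one.neg
        · exact hexp) hω (c 0) (hc 0)
      ![-Complex.I * c 1, c 2] (by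
        intro i
        fin_cases i
        · exact (LW.isAlgebraic_I.neg).mul (hc 1)
        · exact hc 2) (by
        rw [Fin.sum_univ_two]
        simp only [Matrix.cons_val_zero, Matrix.cons_val_one]
        have hII := Complex.I_mul_I
        linear_combination hs - c 1 * (Real.pi : ℂ) * hII)
    have h3 := hfin.2 0
    simp only [Matrix.cons_val_zero] at h3
    intro j
    fin_cases j
    · exact hfin.1
    · rcases mul_eq_zero.mp h3 with h4 | h4
      · exact absurd h4 (neg_ne_zero.mpr Complex.I_ne_zero)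
      · exact h4
    · exact hfin.2 1
  · intro j
    fin_cases j
    · exact Lt_one
    · exact pi_mem
    · exact log_mem n hn
  · intro j
    fin_cases j
    · show ((Real.pi : ℝ) : ℂ) * 1 ∈ Lt
      rw [mul_one]
      exact pi_mem
    · show ((Real.pi : ℝ) : ℂ) * (Real.pi : ℂ) ∈ Lt
      have h1 : ((Real.pi : ℝ) : ℂ) * (Real.pi : ℂ) = ((Real.pi : ℂ) ^ 2 + β * l) - β * l := by ring
      rw [h1]
      exact Lt.sub_mem (Lt_alg halg) (Lt_mul hβ (Lt_log hl))
    · exact pow_mem n hn Real.pi h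

end Pool.Agent.Q258.PiE
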