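import Pool.Agent.Q258.PiE.A

set_option autoImplicit false

namespace Pool.Agent.Q258.PiE

open Pool.Agent.H301R2.SSE Pool.Agent.H340R2 Pool.Agent.H462R2.PiE

/-- multiplicatively dependent integers have a common power -/
theorem dep_pow (m n : ℕ) (hm : 2 ≤ m) (hn : 2 ≤ n) (h : ¬ Indep ![m, n]) :
    ∃ a b : ℕ, 1 ≤ a ∧ 1 ≤ b ∧ m ^ a = n ^ b := by
  unfold Indep at h
  push Not at h
  obtain ⟨k, hk, hk0⟩ := h
  rw [Fin.prod_univ_two] at hk
  simp only [Matrix.cons_val_zero, Matrix.cons_val_one] at hk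
  have hmp : (0 : ℝ) < m := by positivity
  have hnp : (0 : ℝ) < n := by positivity
  have hlm : 0 < Real.log m := Real.log_pos (by exact_mod_cast (by omega : 1 < m))
  have hln : 0 < Real.log n := Real.log_pos (by exact_mod_cast (by omega : 1 < n))
  have hkR : (m : ℝ) ^ (k 0) * (n : ℝ) ^ (k 1) = 1 := by
    have := congrArg (fun q : ℚ => (q : ℝ)) hk
    push_cast at this
    exact this
  have hlog : (k 0 : ℝ) * Real.log m + (k 1 : ℝ) * Real.log n = 0 := by
    have := congrArg Real.log hkR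
    rw [Real.log_mul (zpow_ne_zero _ hmp.ne') (zpow_ne_zero _ hnp.ne'), Real.log_zpow,
      Real.log_zpow, Real.log_one] at this
    exact this
  have h0 : k 0 ≠ 0 := by
    intro h0
    rw [h0] at hlog
    have h1 : k 1 = 0 := by
      have : (k 1 : ℝ) * Real.log n = 0 := by simpa using hlog
      rcases mul_eq_zero.mp this with h | h
      · exact_mod_cast h
      · exact absurd h hln.ne'
    apply hk0
    ext i
    fin_cases i
    · exact h0
    · exact h1
  have h1 : k 1 ≠ 0 := by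
    intro h1
    rw [h1] at hlog
    have : (k 0 : ℝ) * Real.log m = 0 := by simpa using hlog
    rcases mul_eq_zero.mp this with h | h
    · exact h0 (by exact_mod_cast h)
    · exact absurd h hlm.ne'
  refine ⟨(k 0).natAbs, (k 1).natAbs, Int.natAbs_pos.mpr h0, Int.natAbs_pos.mpr h1, ?_⟩
  have habs : ((k 0).natAbs : ℝ) * Real.log m = ((k 1).natAbs : ℝ) * Real.log n := by
    have e : (k 0 : ℝ) * Real.log m = -((k 1 : ℝ) * Real.log n) := by linarith
    have e2 := congrArg abs e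
    rw [abs_neg, abs_mul, abs_mul, abs_of_pos hlm, abs_of_pos hln] at e2
    rw [Nat.cast_natAbs, Nat.cast_natAbs]
    push_cast
    exact e2
  have e3 : Real.log ((m : ℝ) ^ (k 0).natAbs) = Real.log ((n : ℝ) ^ (k 1).natAbs) := by
    rw [Real.log_pow, Real.log_pow]
    exact habs
  have e4 := Real.log_injOn_pos (Set.mem_Ioi.mpr (pow_pos hmp _)) (Set.mem_Ioi.mpr (pow_pos hnp _)) e3
  exact_mod_cast e4

theorem linInd_real (m n : ℕ) (hm : 2 ≤ m) (hn : 2 ≤ n) (h : Indep ![m, n]) :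
    LinearIndependent ℚ ![Real.log m, Real.log n] := by
  have h1 := linInd ![m, n] (by
    intro i
    fin_cases i
    · exact hm
    · exact hn) h
  apply LinearIndependent.of_comp (Complex.ofRealCLM.toLinearMap.restrictScalars ℚ)
  convert h1 using 1
  ext i
  fin_cases i <;> rfl

theorem linInd_irr (n : ℕ) (hn : 2 ≤ n) (b : ℝ) (hb : Irrational b) :
    LinearIndependent ℚ ![Real.log n, b * Real.log n] := by
  have hln : 0 < Real.log n := Real.log_pos (by exact_mod_cast (by omega : 1 < n))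
  rw [LinearIndependent.pair_iff]
  intro s t hst
  rw [Rat.smul_def, Rat.smul_def] at hst
  have h1 : ((s : ℝ) + t * b) * Real.log n = 0 := by linear_combination hst
  have h2 := (mul_eq_zero.mp h1).resolve_right hln.ne'
  have ht : t = 0 := by
    by_contra ht
    apply hb
    refine ⟨-s / t, ?_⟩
    have ht' : (t : ℝ) ≠ 0 := by exact_mod_cast ht
    push_cast
    field_simp
    linarith
  subst ht
  refine ⟨?_, rfl⟩
  simpa using h2

theorem exp_log_alg (n : ℕ) (hn : 2 ≤ n) :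
    IsAlgebraic ℚ (Complex.exp ((Real.log n : ℝ) : ℂ)) := by
  have hpos : (0 : ℝ) < n := by positivity
  rw [← Complex.ofReal_exp, Real.exp_log hpos]
  exact_mod_cast isAlgebraic_natCast n

theorem exp_mul_alg (n : ℕ) (hn : 2 ≤ n) (b : ℝ) (h : IsAlgebraic ℚ ((n : ℝ) ^ b)) :
    IsAlgebraic ℚ (Complex.exp ((b * Real.log n : ℝ) : ℂ)) := by
  have := exp_mul_log n hn b
  push_cast at this ⊢
  rw [this]
  exact alg_ofReal h

theorem mem_mul (n : ℕ) (hn : 2 ≤ n) (b c : ℝ) (h : IsAlgebraic ℚ ((n : ℝ) ^ (c * b))) :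
    ((c : ℝ) : ℂ) * ((b * Real.log n : ℝ) : ℂ) ∈ Lt := by
  have := pow_mem n hn (c * b) h
  convert this using 1
  push_cast
  ring

/-- irrational `b` with `n ^ π`, `n ^ b` algebraic -/
theorem pi_pair (n : ℕ) (hn : 2 ≤ n) (b : ℝ) (hb : Irrational b)
    (h1 : IsAlgebraic ℚ ((n : ℝ) ^ Real.pi)) (h2 : IsAlgebraic ℚ ((n : ℝ) ^ b)) :
    Transcendental ℚ ((n : ℝ) ^ (Real.pi * b)) := by
  intro h3
  refine main_pi (linInd_irr n hn b hb) ?_ ?_
  · intro i
    fin_cases i
    · exact exp_log_alg n hn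
    · exact exp_mul_alg n hn b h2
  · intro i
    fin_cases i
    · exact pow_mem n hn Real.pi h1
    · exact mem_mul n hn b Real.pi h3

theorem pi_two (m n : ℕ) (hm : 2 ≤ m) (hn : 2 ≤ n) (h : Indep ![m, n])
    (h1 : IsAlgebraic ℚ ((m : ℝ) ^ Real.pi)) (h2 : IsAlgebraic ℚ ((n : ℝ) ^ Real.pi)) : False := by
  refine two_of_mem Real.pi LW.transcendental_pi pi_mem ![m, n] ?_ h ?_
  · intro i
    fin_cases i
    · exact hm
    · exact hn
  · intro i
    fin_cases i
    · exact h1
    · exact h2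

theorem e_two (m n : ℕ) (hm : 2 ≤ m) (hn : 2 ≤ n) (h : Indep ![m, n])
    (h1 : IsAlgebraic ℚ ((m : ℝ) ^ Real.exp 1)) (h2 : IsAlgebraic ℚ ((n : ℝ) ^ Real.exp 1))
    (β l : ℂ) (hβ : IsAlgebraic ℚ β) (hl : IsAlgebraic ℚ (Complex.exp l)) :
    Transcendental ℚ ((Real.exp 1 : ℂ) + β * l) ∧
    Transcendental ℚ ((Real.exp 1 : ℂ) * ((Real.pi : ℂ) + β)) := by
  refine main_e (linInd_real m n hm hn h) ?_ ?_ β l hβ hl
  · intro i
    fin_cases i
    · exact exp_log_alg m hm
    · exact exp_log_alg n hn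
  · intro i
    fin_cases i
    · exact pow_mem m hm _ h1
    · exact pow_mem n hn _ h2

theorem e_sq (n : ℕ) (hn : 2 ≤ n)
    (h1 : IsAlgebraic ℚ ((n : ℝ) ^ Real.exp 1)) (h2 : IsAlgebraic ℚ ((n : ℝ) ^ (Real.exp 1 * Real.exp 1)))
    (β l : ℂ) (hβ : IsAlgebraic ℚ β) (hl : IsAlgebraic ℚ (Complex.exp l)) :
    Transcendental ℚ ((Real.exp 1 : ℂ) + β * l) ∧
    Transcendental ℚ ((Real.exp 1 : ℂ) * ((Real.pi : ℂ) + β)) := by
  refine main_e (linInd_irr n hn _ (LW.transcendental_exp_one).irrational) ?_ ?_ β l hβ hl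
  · intro i
    fin_cases i
    · exact exp_log_alg n hn
    · exact exp_mul_alg n hn _ h1
  · intro i
    fin_cases i
    · exact pow_mem n hn _ h1
    · exact mem_mul n hn _ _ h2

/-- `(n ^ k) ^ b = (n ^ b) ^ k` -/
theorem pow_rpow (n k : ℕ) (b : ℝ) : (((n ^ k : ℕ) : ℝ)) ^ b = ((n : ℝ) ^ b) ^ k := by
  have h0 : (0 : ℝ) ≤ n := Nat.cast_nonneg n
  push_cast
  rw [← Real.rpow_natCast, ← Real.rpow_natCast, ← Real.rpow_mul h0, ← Real.rpow_mul h0, mul_comm]

/-- structure of the set of `n` with `n ^ π` algebraic -/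
theorem pi_struct : (∀ n : ℕ, 2 ≤ n → Transcendental ℚ ((n : ℝ) ^ Real.pi)) ∨
    ∃ c : ℕ, 2 ≤ c ∧ ∀ n : ℕ, 2 ≤ n →
      (IsAlgebraic ℚ ((n : ℝ) ^ Real.pi) ↔ ∃ k : ℕ, 1 ≤ k ∧ n = c ^ k) := by
  classical
  by_cases hex : ∃ n : ℕ, 2 ≤ n ∧ IsAlgebraic ℚ ((n : ℝ) ^ Real.pi)
  · right
    obtain ⟨hc2, hcalg⟩ := Nat.find_spec hex
    have hmin : ∀ m : ℕ, 2 ≤ m → IsAlgebraic ℚ ((m : ℝ) ^ Real.pi) → Nat.find hex ≤ m :=
      fun m h1 h2 => Nat.find_min' hex ⟨h1, h2⟩
    generalize Nat.find hex = c at hc2 hcalg hmin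
    refine ⟨c, hc2, ?_⟩
    intro n hn
    constructor
    · intro halg
      have hdep : ¬ Indep ![c, n] := fun hi => pi_two c n hc2 hn hi hcalg halg
      obtain ⟨a, b, ha, hb, hab⟩ := dep_pow c n hc2 hn hdep
      obtain ⟨t, ht1, ht2⟩ := Nat.exists_eq_pow_of_pow_eq_pow (Or.inl (by omega)) hab
      have hg : Nat.gcd a b ≠ 0 := Nat.gcd_ne_zero_left (by omega)
      have hbg : 0 < b / Nat.gcd a b :=
        Nat.div_pos (Nat.le_of_dvd (by omega) (Nat.gcd_dvd_right a b)) (Nat.pos_of_ne_zero hg)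
      have hag : 0 < a / Nat.gcd a b :=
        Nat.div_pos (Nat.le_of_dvd (by omega) (Nat.gcd_dvd_left a b)) (Nat.pos_of_ne_zero hg)
      have ht3 : 2 ≤ t := by
        by_contra ht
        have : t ≤ 1 := by omega
        have : c ≤ 1 := by
          rw [ht1]
          exact pow_le_one' this _
        omega
      have ht4 : IsAlgebraic ℚ ((t : ℝ) ^ Real.pi) := by
        have h1 : IsAlgebraic ℚ (((t : ℝ) ^ Real.pi) ^ (b / Nat.gcd a b)) := by
          rw [← pow_rpow]
          rw [← ht1]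
          exact hcalg
        exact IsAlgebraic.of_pow hbg h1
      have h5 := hmin t ht3 ht4
      have h6 : t ≤ c := by
        rw [ht1]
        exact Nat.le_self_pow (by omega) t
      have h7 : t = c := le_antisymm h6 h5
      exact ⟨_, hag, by rw [← h7]; exact ht2⟩
    · rintro ⟨k, hk, rfl⟩
      rw [pow_rpow]
      exact hcalg.pow k
  · left
    push Not at hex
    intro n hn
    exact hex n hn

/-- structure of the set of `n` with `n ^ π` rational -/
theorem pi_rat : (∀ n : ℕ, 2 ≤ n → Irrational ((n : ℝ) ^ Real.pi)) ∨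
    ∃ c : ℕ, 2 ≤ c ∧ ∀ n : ℕ, 2 ≤ n →
      (¬ Irrational ((n : ℝ) ^ Real.pi) ↔ ∃ k : ℕ, 1 ≤ k ∧ n = c ^ k) := by
  classical
  rcases pi_struct with h | ⟨c, hc, h⟩
  · left
    intro n hn
    exact (h n hn).irrational
  · by_cases hex : ∃ k : ℕ, 1 ≤ k ∧ ¬ Irrational (((c ^ k : ℕ) : ℝ) ^ Real.pi)
    · right
      obtain ⟨hd1, hdr⟩ := Nat.find_spec hex
      have hmin : ∀ m : ℕ, 1 ≤ m → ¬ Irrational (((c ^ m : ℕ) : ℝ) ^ Real.pi) → Nat.find hex ≤ m :=
        fun m h1 h2 => Nat.find_min' hex ⟨h1, h2⟩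
      generalize Nat.find hex = d at hd1 hdr hmin
      have hcd : 2 ≤ c ^ d := by
        calc 2 ≤ c := hc
          _ ≤ c ^ d := Nat.le_self_pow (by omega) c
      refine ⟨c ^ d, hcd, ?_⟩
      intro n hn
      constructor
      · intro hr
        have halg : IsAlgebraic ℚ ((n : ℝ) ^ Real.pi) := by
          unfold Irrational at hr
          push Not at hr
          obtain ⟨q, hq⟩ := hr
          rw [← hq]
          exact isAlgebraic_algebraMap q
        obtain ⟨k, hk, rfl⟩ := (h n hn).mp halg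
        have hmod : k % d = 0 := by
          by_contra hne
          have h1 : ¬ Irrational (((c ^ (k % d) : ℕ) : ℝ) ^ Real.pi) := by
            rw [pow_rpow] at hr hdr ⊢
            unfold Irrational at hr hdr ⊢
            push Not at hr hdr ⊢
            obtain ⟨q, hq⟩ := hr
            obtain ⟨r, hrr⟩ := hdr
            refine ⟨q / r ^ (k / d), ?_⟩
            have hcpos : (0 : ℝ) < (c : ℝ) ^ Real.pi := by positivity
            push_cast
            rw [hq, hrr]
            rw [div_eq_iff (by positivity), ← pow_mul, ← pow_add]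
            congr 1
            exact (Nat.mod_add_div k d).symm
          have := hmin (k % d) (by omega) h1
          have := Nat.mod_lt k (by omega : 0 < d)
          omega
        refine ⟨k / d, ?_, ?_⟩
        · apply Nat.div_pos (Nat.le_of_dvd (by omega) (Nat.dvd_of_mod_eq_zero hmod)) (by omega)
        · rw [← pow_mul, Nat.mul_div_cancel' (Nat.dvd_of_mod_eq_zero hmod)]
      · rintro ⟨k, hk, rfl⟩
        rw [pow_rpow]
        unfold Irrational at hdr ⊢
        push Not at hdr ⊢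
        obtain ⟨r, hrr⟩ := hdr
        exact ⟨r ^ k, by push_cast; rw [hrr]; push_cast; rfl⟩
    · left
      push Not at hex
      intro n hn
      by_contra hr
      have halg : IsAlgebraic ℚ ((n : ℝ) ^ Real.pi) := by
        unfold Irrational at hr
        push Not at hr
        obtain ⟨q, hq⟩ := hr
        rw [← hq]
        exact isAlgebraic_algebraMap q
      obtain ⟨k, hk, rfl⟩ := (h n hn).mp halg
      exact hr (hex k hk)

end Pool.Agent.Q258.PiE
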