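import Pool.Agent.Q258.PiE.B

/-!
# Groups of positive rational numbers of rank at most two
-/

set_option autoImplicit false

namespace Pool.Agent.Q258.PiE

open Pool.Agent.H301R2.SSE Pool.Agent.H340R2 Pool.Agent.H462R2.PiE

theorem eq_one_of_val (x : ℚ) (hx : 0 < x) (h : ∀ p : ℕ, p.Prime → padicValRat p x = 0) :
    x = 1 := by
  have hn0 : 0 < x.num := Rat.num_pos.mpr hx
  have ha0 : x.num.natAbs ≠ 0 := by omega
  have hcop : Nat.Coprime x.num.natAbs x.den := x.reduced
  have h1 : x.num.natAbs = 1 := by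
    by_contra hne
    obtain ⟨p, hp, hd⟩ := Nat.exists_prime_and_dvd hne
    haveI := Fact.mk hp
    have hb : ¬ p ∣ x.den := fun hb => by
      have := Nat.dvd_gcd hd hb
      rw [Nat.Coprime.gcd_eq_one hcop] at this
      exact hp.one_lt.ne' (Nat.dvd_one.mp this)
    have h2 := h p hp
    unfold padicValRat padicValInt at h2
    rw [padicValNat.eq_zero_of_not_dvd hb] at h2
    have h3 := one_le_padicValNat_of_dvd ha0 hd
    omega
  have h2 : x.den = 1 := by
    by_contra hne
    obtain ⟨p, hp, hd⟩ := Nat.exists_prime_and_dvd hne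
    haveI := Fact.mk hp
    have hb : ¬ p ∣ x.num.natAbs := by
      rw [h1]
      exact fun hb => hp.one_lt.ne' (Nat.dvd_one.mp hb)
    have h2 := h p hp
    unfold padicValRat padicValInt at h2
    rw [padicValNat.eq_zero_of_not_dvd hb] at h2
    have h3 := one_le_padicValNat_of_dvd x.den_nz hd
    omega
  have h3 : x.num = 1 := by omega
  exact Rat.ext h3 h2

theorem val_zpow (p : ℕ) (hp : p.Prime) (x : ℚ) (hx : x ≠ 0) (k : ℤ) :
    padicValRat p (x ^ k) = k * padicValRat p x := by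
  haveI := Fact.mk hp
  rcases k with k | k
  · simp only [Int.ofNat_eq_natCast, zpow_natCast]
    rw [padicValRat.pow]
  · rw [zpow_negSucc, padicValRat.inv, padicValRat.pow]
    rw [Int.negSucc_eq]
    push_cast
    ring

theorem val_mul (p : ℕ) (hp : p.Prime) (x y : ℚ) (hx : x ≠ 0) (hy : y ≠ 0) :
    padicValRat p (x * y) = padicValRat p x + padicValRat p y := by
  haveI := Fact.mk hp
  exact padicValRat.mul hx hy

/-- three multiplicatively independent positive rationals -/
theorem three_rat (x : Fin 3 → ℚ) (hx : ∀ i, 0 < x i)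
    (hi : ∀ k : Fin 3 → ℤ, ∏ i, (x i) ^ (k i) = 1 → k = 0) (b : ℝ) (hb : Transcendental ℚ b)
    (h : ∀ i, IsAlgebraic ℚ (((x i : ℚ) : ℝ) ^ b)) : False := by
  have hx' : ∀ i, (0 : ℝ) < ((x i : ℚ) : ℝ) := fun i => by exact_mod_cast hx i
  have h0 : LinearIndependent ℤ (fun i => Real.log (x i)) := by
    rw [Fintype.linearIndependent_iff]
    intro k hk
    have hk' : ∑ i, (k i : ℝ) * Real.log (x i) = 0 := by simpa [zsmul_eq_mul] using hk
    have h1 : Real.log (∏ i, ((x i : ℚ) : ℝ) ^ (k i)) = 0 := by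
      rw [Real.log_prod (fun i _ => (zpow_pos (hx' i) _).ne')]
      simp only [Real.log_zpow]
      exact hk'
    have h2 : (0 : ℝ) < ∏ i, ((x i : ℚ) : ℝ) ^ (k i) :=
      Finset.prod_pos (fun i _ => zpow_pos (hx' i) _)
    have h3 : (∏ i, ((x i : ℚ) : ℝ) ^ (k i)) = 1 := by
      have := Real.exp_log h2
      rw [h1, Real.exp_zero] at this
      exact this.symm
    have h4 : (((∏ i, (x i) ^ (k i)) : ℚ) : ℝ) = 1 := by
      push_cast
      exact h3
    have h5 := hi k (by exact_mod_cast h4)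
    intro i
    rw [h5]; rfl
  have h1 : LinearIndependent ℚ (fun i => Real.log (x i)) :=
    (LinearIndependent.iff_fractionRing ℤ ℚ).mp h0
  have hlin : LinearIndependent ℚ (fun i => ((Real.log (x i) : ℝ) : ℂ)) :=
    h1.map' (Complex.ofRealCLM.toLinearMap.restrictScalars ℚ) (by
      rw [LinearMap.ker_eq_bot]
      exact Complex.ofReal_injective)
  have halg : ∀ i, IsAlgebraic ℚ (Complex.exp ((Real.log (x i) : ℝ) : ℂ)) := by
    intro i
    rw [← Complex.ofReal_exp, Real.exp_log (hx' i)]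
    have := isAlgebraic_algebraMap (R := ℚ) (A := ℂ) (x i)
    simpa using this
  refine strong_six ![1, ((b : ℝ) : ℂ)] (fun i => ((Real.log (x i) : ℝ) : ℂ)) ?_ ?_ ?_
  · intro a c ha hc hac
    exact one_indep b hb a c ha hc hac
  · intro c hc hsum
    exact (Pool.Agent.H297R2.baker_inhom _ halg hlin 0 isAlgebraic_zero c hc
      (by simpa using hsum)).2
  · intro i j
    fin_cases i
    · simpa using Lt_log (halg j)
    · have : IsAlgebraic ℚ (Complex.exp (((b : ℝ) : ℂ) * ((Real.log (x j) : ℝ) : ℂ))) := by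
        have h2 : Complex.exp (((b : ℝ) : ℂ) * ((Real.log (x j) : ℝ) : ℂ)) =
            ((((x j : ℚ) : ℝ) ^ b : ℝ) : ℂ) := by
          rw [Real.rpow_def_of_pos (hx' j), Complex.ofReal_exp]
          push_cast
          rw [mul_comm]
        rw [h2]
        exact alg_ofReal (h j)
      simpa using Lt_log this

/-- two valuations separate the elements of a group of rank at most two -/
theorem two_val (S : Set ℚ) (hpos : ∀ x ∈ S, 0 < x)
    (hdep : ∀ x : Fin 3 → ℚ, (∀ i, x i ∈ S) → ¬ ∀ k : Fin 3 → ℤ, ∏ i, (x i) ^ (k i) = 1 → k = 0) :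
    ∃ p q : ℕ, p.Prime ∧ q.Prime ∧ p ≠ q ∧
      ∀ x ∈ S, padicValRat p x = 0 → padicValRat q x = 0 → x = 1 := by
  by_cases hA : ∀ x ∈ S, x = 1
  · exact ⟨2, 3, Nat.prime_two, Nat.prime_three, by norm_num, fun x hx _ _ => hA x hx⟩
  push Not at hA
  obtain ⟨a, haS, ha1⟩ := hA
  obtain ⟨p, hp, hpa⟩ : ∃ p : ℕ, p.Prime ∧ padicValRat p a ≠ 0 := by
    by_contra hcon
    push Not at hcon
    exact ha1 (eq_one_of_val a (hpos a haS) hcon)
  by_cases hB : ∀ x ∈ S, padicValRat p x = 0 → x = 1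
  · obtain ⟨q, hq1, hq⟩ := Nat.exists_infinite_primes (p + 1)
    exact ⟨p, q, hp, hq, by omega, fun x hx h1 _ => hB x hx h1⟩
  push Not at hB
  obtain ⟨b, hbS, hpb, hb1⟩ := hB
  obtain ⟨q, hq, hqb⟩ : ∃ q : ℕ, q.Prime ∧ padicValRat q b ≠ 0 := by
    by_contra hcon
    push Not at hcon
    exact hb1 (eq_one_of_val b (hpos b hbS) hcon)
  refine ⟨p, q, hp, hq, ?_, ?_⟩
  · rintro rfl
    exact hqb hpb
  · intro x hxS hpx hqx
    by_contra hx1
    obtain ⟨l, hl, hlx⟩ : ∃ l : ℕ, l.Prime ∧ padicValRat l x ≠ 0 := by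
      by_contra hcon
      push Not at hcon
      exact hx1 (eq_one_of_val x (hpos x hxS) hcon)
    have ha0 := (hpos a haS).ne'
    have hb0 := (hpos b hbS).ne'
    have hx0 := (hpos x hxS).ne'
    refine hdep ![a, b, x] ?_ ?_
    · intro i
      fin_cases i
      · exact haS
      · exact hbS
      · exact hxS
    · intro k hk
      rw [Fin.prod_univ_three] at hk
      simp only [Matrix.cons_val_zero, Matrix.cons_val_one, Matrix.cons_val] at hk
      have hval : ∀ r : ℕ, r.Prime → k 0 * padicValRat r a + k 1 * padicValRat r b +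
          k 2 * padicValRat r x = 0 := by
        intro r hr
        have h2 := congrArg (padicValRat r) hk
        rw [val_mul r hr _ _ (mul_ne_zero (zpow_ne_zero _ ha0) (zpow_ne_zero _ hb0))
          (zpow_ne_zero _ hx0), val_mul r hr _ _ (zpow_ne_zero _ ha0) (zpow_ne_zero _ hb0),
          val_zpow r hr a ha0, val_zpow r hr b hb0, val_zpow r hr x hx0, padicValRat.one] at h2
        exact h2
      have hk0 : k 0 = 0 := by
        have h2 := hval p hp
        rw [hpb, hpx] at h2
        have h3 : k 0 * padicValRat p a = 0 := by simpa using h2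
        exact (mul_eq_zero.mp h3).resolve_right hpa
      have hk1 : k 1 = 0 := by
        have h2 := hval q hq
        rw [hk0, hqx] at h2
        have h3 : k 1 * padicValRat q b = 0 := by simpa using h2
        exact (mul_eq_zero.mp h3).resolve_right hqb
      have hk2 : k 2 = 0 := by
        have h2 := hval l hl
        rw [hk0, hk1] at h2
        have h3 : k 2 * padicValRat l x = 0 := by simpa using h2
        exact (mul_eq_zero.mp h3).resolve_right hlx
      ext i
      fin_cases i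
      · exact hk0
      · exact hk1
      · exact hk2

/-- a group of positive rationals separated by two valuations has two generators -/
theorem two_gen (S : Set ℚ) (hpos : ∀ x ∈ S, 0 < x) (h1 : (1 : ℚ) ∈ S)
    (hmul : ∀ x ∈ S, ∀ y ∈ S, x * y ∈ S) (hinv : ∀ x ∈ S, x⁻¹ ∈ S) (p q : ℕ) (hp : p.Prime)
    (hq : q.Prime) (hsep : ∀ x ∈ S, padicValRat p x = 0 → padicValRat q x = 0 → x = 1) :
    ∃ c ∈ S, ∃ d ∈ S, ∀ x : ℚ, x ∈ S ↔ ∃ i j : ℤ, x = c ^ i * d ^ j := by
  have hzpow : ∀ x ∈ S, ∀ k : ℤ, x ^ k ∈ S := by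
    intro x hx k
    have hnat : ∀ n : ℕ, x ^ n ∈ S := by
      intro n
      induction n with
      | zero => simpa using h1
      | succ n ih => rw [pow_succ]; exact hmul _ ih _ hx
    rcases k with k | k
    · simpa using hnat k
    · rw [zpow_negSucc]; exact hinv _ (hnat _)
  have hne : ∀ x ∈ S, x ≠ 0 := fun x hx => (hpos x hx).ne'
  haveI := Fact.mk hp
  haveI := Fact.mk hq
  let I1 : AddSubgroup ℤ :=
    { carrier := {k | ∃ x ∈ S, padicValRat p x = k}
      zero_mem' := ⟨1, h1, padicValRat.one⟩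
      add_mem' := by
        rintro k l ⟨x, hx, rfl⟩ ⟨y, hy, rfl⟩
        exact ⟨x * y, hmul x hx y hy, padicValRat.mul (hne x hx) (hne y hy)⟩
      neg_mem' := by
        rintro k ⟨x, hx, rfl⟩
        exact ⟨x⁻¹, hinv x hx, padicValRat.inv x⟩ }
  let I2 : AddSubgroup ℤ :=
    { carrier := {k | ∃ x ∈ S, padicValRat p x = 0 ∧ padicValRat q x = k}
      zero_mem' := ⟨1, h1, padicValRat.one, padicValRat.one⟩
      add_mem' := by
        rintro k l ⟨x, hx, h3, rfl⟩ ⟨y, hy, h4, rfl⟩
        refine ⟨x * y, hmul x hx y hy, ?_, padicValRat.mul (hne x hx) (hne y hy)⟩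
        rw [padicValRat.mul (hne x hx) (hne y hy), h3, h4, add_zero]
      neg_mem' := by
        rintro k ⟨x, hx, h3, rfl⟩
        refine ⟨x⁻¹, hinv x hx, ?_, padicValRat.inv x⟩
        rw [padicValRat.inv, h3, neg_zero] }
  obtain ⟨u, hu⟩ := Int.subgroup_cyclic I1
  obtain ⟨w, hw⟩ := Int.subgroup_cyclic I2
  have hu1 : u ∈ I1 := by rw [hu]; exact AddSubgroup.subset_closure (Set.mem_singleton u)
  have hw1 : w ∈ I2 := by rw [hw]; exact AddSubgroup.subset_closure (Set.mem_singleton w)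
  obtain ⟨c, hcS, hc⟩ := hu1
  obtain ⟨d, hdS, hd1, hd2⟩ := hw1
  refine ⟨c, hcS, d, hdS, ?_⟩
  intro x
  constructor
  · intro hx
    have hx1 : padicValRat p x ∈ I1 := ⟨x, hx, rfl⟩
    rw [hu, AddSubgroup.mem_closure_singleton] at hx1
    obtain ⟨i, hi⟩ := hx1
    have hy : x * c ^ (-i) ∈ S := hmul x hx _ (hzpow c hcS _)
    have hy1 : padicValRat p (x * c ^ (-i)) = 0 := by
      rw [val_mul p hp _ _ (hne x hx) (hne _ (hzpow c hcS _)), val_zpow p hp c (hne c hcS), hc,
        ← hi]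
      simp
    have hy2 : padicValRat q (x * c ^ (-i)) ∈ I2 := ⟨_, hy, hy1, rfl⟩
    rw [hw, AddSubgroup.mem_closure_singleton] at hy2
    obtain ⟨j, hj⟩ := hy2
    have hz : x * c ^ (-i) * d ^ (-j) ∈ S := hmul _ hy _ (hzpow d hdS _)
    have hz1 : x * c ^ (-i) * d ^ (-j) = 1 := by
      refine hsep _ hz ?_ ?_
      · rw [val_mul p hp _ _ (hne _ hy) (hne _ (hzpow d hdS _)), val_zpow p hp d (hne d hdS), hy1,
          hd1]
        simp
      · rw [val_mul q hq _ _ (hne _ hy) (hne _ (hzpow d hdS _)), val_zpow q hq d (hne d hdS), hd2,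
          ← hj]
        simp
    refine ⟨i, j, ?_⟩
    have hc0 : c ^ i ≠ 0 := zpow_ne_zero _ (hne c hcS)
    have hd0 : d ^ j ≠ 0 := zpow_ne_zero _ (hne d hdS)
    rw [zpow_neg, zpow_neg] at hz1
    field_simp at hz1
    linarith
  · rintro ⟨i, j, rfl⟩
    exact hmul _ (hzpow c hcS i) _ (hzpow d hdS j)

end Pool.Agent.Q258.PiE
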