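import Pool.Agent.Q258.PiE.C

/-!
# Powers with exponent `e` : structure and counting
-/

set_option autoImplicit false

namespace Pool.Agent.Q258.PiE

theorem e_trans : Transcendental ℚ (Real.exp 1) :=
  Pool.Agent.H340R2.LW.transcendental_exp_one

/-- the positive rationals with algebraic power -/
def SA (b : ℝ) : Set ℚ := {x | 0 < x ∧ IsAlgebraic ℚ ((x : ℝ) ^ b)}

/-- the positive rationals with rational power -/
def SR (b : ℝ) : Set ℚ := {x | 0 < x ∧ ∃ q : ℚ, (x : ℝ) ^ b = q}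

theorem SA_one (b : ℝ) : (1 : ℚ) ∈ SA b := by
  refine ⟨one_pos, ?_⟩
  simpa using (isAlgebraic_one (R := ℚ) (A := ℝ))

theorem SA_mul (b : ℝ) : ∀ x ∈ SA b, ∀ y ∈ SA b, x * y ∈ SA b := by
  rintro x ⟨hx, hx2⟩ y ⟨hy, hy2⟩
  refine ⟨mul_pos hx hy, ?_⟩
  have h1 : (0 : ℝ) ≤ (x : ℝ) := by exact_mod_cast hx.le
  have h2 : (0 : ℝ) ≤ (y : ℝ) := by exact_mod_cast hy.le
  rw [Rat.cast_mul, Real.mul_rpow h1 h2]
  exact hx2.mul hy2

theorem SA_inv (b : ℝ) : ∀ x ∈ SA b, x⁻¹ ∈ SA b := by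
  rintro x ⟨hx, hx2⟩
  refine ⟨inv_pos.mpr hx, ?_⟩
  have h1 : (0 : ℝ) ≤ (x : ℝ) := by exact_mod_cast hx.le
  rw [Rat.cast_inv, Real.inv_rpow h1]
  exact hx2.inv

theorem SR_one (b : ℝ) : (1 : ℚ) ∈ SR b := ⟨one_pos, 1, by simp⟩

theorem SR_mul (b : ℝ) : ∀ x ∈ SR b, ∀ y ∈ SR b, x * y ∈ SR b := by
  rintro x ⟨hx, q, hq⟩ y ⟨hy, r, hr⟩
  refine ⟨mul_pos hx hy, q * r, ?_⟩
  have h1 : (0 : ℝ) ≤ (x : ℝ) := by exact_mod_cast hx.le
  have h2 : (0 : ℝ) ≤ (y : ℝ) := by exact_mod_cast hy.le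
  rw [Rat.cast_mul, Real.mul_rpow h1 h2, hq, hr, Rat.cast_mul]

theorem SR_inv (b : ℝ) : ∀ x ∈ SR b, x⁻¹ ∈ SR b := by
  rintro x ⟨hx, q, hq⟩
  refine ⟨inv_pos.mpr hx, q⁻¹, ?_⟩
  have h1 : (0 : ℝ) ≤ (x : ℝ) := by exact_mod_cast hx.le
  rw [Rat.cast_inv, Real.inv_rpow h1, hq, Rat.cast_inv]

theorem SR_sub (b : ℝ) : SR b ⊆ SA b := by
  rintro x ⟨hx, q, hq⟩
  refine ⟨hx, ?_⟩
  rw [hq]
  have := isAlgebraic_algebraMap (R := ℚ) (A := ℝ) q
  simpa using this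

theorem SA_two_val (b : ℝ) (hb : Transcendental ℚ b) :
    ∃ p q : ℕ, p.Prime ∧ q.Prime ∧ p ≠ q ∧
      ∀ x ∈ SA b, padicValRat p x = 0 → padicValRat q x = 0 → x = 1 :=
  two_val (SA b) (fun x hx => hx.1) fun x hx hi =>
    three_rat x (fun i => (hx i).1) hi b hb fun i => (hx i).2

theorem struct_alg (b : ℝ) (hb : Transcendental ℚ b) : ∃ c d : ℚ, 0 < c ∧ 0 < d ∧
    ∀ x : ℚ, 0 < x → (IsAlgebraic ℚ ((x : ℝ) ^ b) ↔ ∃ i j : ℤ, x = c ^ i * d ^ j) := by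
  obtain ⟨p, q, hp, hq, -, hsep⟩ := SA_two_val b hb
  obtain ⟨c, hc, d, hd, h⟩ := two_gen (SA b) (fun x hx => hx.1) (SA_one b) (SA_mul b) (SA_inv b)
    p q hp hq hsep
  refine ⟨c, d, hc.1, hd.1, fun x hx => ?_⟩
  rw [← h x]
  exact ⟨fun h1 => ⟨hx, h1⟩, fun h1 => h1.2⟩

theorem struct_rat (b : ℝ) (hb : Transcendental ℚ b) : ∃ c d : ℚ, 0 < c ∧ 0 < d ∧
    ∀ x : ℚ, 0 < x → ((∃ q : ℚ, (x : ℝ) ^ b = q) ↔ ∃ i j : ℤ, x = c ^ i * d ^ j) := by
  obtain ⟨p, q, hp, hq, -, hsep⟩ := SA_two_val b hb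
  obtain ⟨c, hc, d, hd, h⟩ := two_gen (SR b) (fun x hx => hx.1) (SR_one b) (SR_mul b) (SR_inv b)
    p q hp hq (fun x hx => hsep x (SR_sub b hx))
  refine ⟨c, d, hc.1, hd.1, fun x hx => ?_⟩
  rw [← h x]
  exact ⟨fun h1 => ⟨hx, h1⟩, fun h1 => h1.2⟩

theorem two_three {a b c d : ℕ} (h : 2 ^ a * 3 ^ b = 2 ^ c * 3 ^ d) : a = c ∧ b = d := by
  have key2 : ∀ a b c d : ℕ, 2 ^ a * 3 ^ b = 2 ^ c * 3 ^ d → a ≤ c := by
    intro a b c d h
    have h1 : 2 ^ a ∣ 2 ^ c * 3 ^ d := by rw [← h]; exact dvd_mul_right _ _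
    have hcop : Nat.Coprime (2 ^ a) (3 ^ d) := Nat.Coprime.pow a d (by decide)
    exact (Nat.pow_dvd_pow_iff_le_right (by norm_num)).mp (hcop.dvd_of_dvd_mul_right h1)
  have key3 : ∀ a b c d : ℕ, 2 ^ a * 3 ^ b = 2 ^ c * 3 ^ d → b ≤ d := by
    intro a b c d h
    have h1 : 3 ^ b ∣ 2 ^ c * 3 ^ d := by rw [← h]; exact dvd_mul_left _ _
    have hcop : Nat.Coprime (3 ^ b) (2 ^ c) := Nat.Coprime.pow b c (by decide)
    exact (Nat.pow_dvd_pow_iff_le_right (by norm_num)).mp (hcop.dvd_of_dvd_mul_left h1)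
  exact ⟨le_antisymm (key2 a b c d h) (key2 c d a b h.symm),
    le_antisymm (key3 a b c d h) (key3 c d a b h.symm)⟩

theorem pq_dvd (p q : ℕ) (hp : p.Prime) (hq : q.Prime) (hne : p ≠ q) (n : ℕ) (hn : 0 < n) :
    p ^ padicValNat p n * q ^ padicValNat q n ≤ n := by
  refine Nat.le_of_dvd hn (Nat.Coprime.mul_dvd_of_dvd_of_dvd ?_ pow_padicValNat_dvd
    pow_padicValNat_dvd)
  exact Nat.Coprime.pow _ _ ((Nat.coprime_primes hp hq).mpr hne)

open Classical in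
theorem count_lt (b : ℝ) (p q : ℕ) (hp : p.Prime) (hq : q.Prime) (hpq : p < q)
    (hsep : ∀ x ∈ SA b, padicValRat p x = 0 → padicValRat q x = 0 → x = 1) (N : ℕ) :
    ((Finset.Icc 2 N).filter (fun n : ℕ => IsAlgebraic ℚ ((n : ℝ) ^ b))).card ≤
      ((Finset.Icc 2 N).filter (fun m : ℕ => ∃ i j : ℕ, m = 2 ^ i * 3 ^ j)).card := by
  have hfp := Fact.mk hp
  have hfq := Fact.mk hq
  have hmem : ∀ n : ℕ, 2 ≤ n → IsAlgebraic ℚ ((n : ℝ) ^ b) → (n : ℚ) ∈ SA b := by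
    intro n hn h
    refine ⟨by positivity, ?_⟩
    simpa using h
  refine Finset.card_le_card_of_injOn
    (fun n => 2 ^ padicValNat p n * 3 ^ padicValNat q n) ?_ ?_
  · intro n hn
    rw [Finset.mem_coe, Finset.mem_filter, Finset.mem_Icc] at hn
    obtain ⟨⟨h2, hN⟩, halg⟩ := hn
    rw [Finset.mem_coe, Finset.mem_filter, Finset.mem_Icc]
    refine ⟨⟨?_, ?_⟩, _, _, rfl⟩
    · by_contra hcon
      have hlt : 2 ^ padicValNat p n * 3 ^ padicValNat q n < 2 := not_le.mp hcon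
      have h3 : padicValNat p n = 0 := by
        by_contra h0
        have h4 : 2 ≤ 2 ^ padicValNat p n := by
          calc 2 = 2 ^ 1 := by norm_num
            _ ≤ 2 ^ padicValNat p n := Nat.pow_le_pow_right (by norm_num) (by omega)
        have h5 : 1 ≤ 3 ^ padicValNat q n := Nat.one_le_pow _ _ (by norm_num)
        have := Nat.mul_le_mul h4 h5
        omega
      have h4 : padicValNat q n = 0 := by
        by_contra h0
        have h4 : 2 ≤ 3 ^ padicValNat q n := by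
          calc 2 ≤ 3 ^ 1 := by norm_num
            _ ≤ 3 ^ padicValNat q n := Nat.pow_le_pow_right (by norm_num) (by omega)
        have h5 : 1 ≤ 2 ^ padicValNat p n := Nat.one_le_pow _ _ (by norm_num)
        have := Nat.mul_le_mul h5 h4
        omega
      have h5 := hsep (n : ℚ) (hmem n h2 halg) (by rw [padicValRat.of_nat, h3]; rfl)
        (by rw [padicValRat.of_nat, h4]; rfl)
      have h6 : n = 1 := by exact_mod_cast h5
      omega
    · refine le_trans ?_ ((pq_dvd p q hp hq hpq.ne n (by omega)).trans hN)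
      have h1 := hp.two_le
      have h3 : 3 ≤ q := lt_of_le_of_lt h1 hpq
      exact Nat.mul_le_mul (Nat.pow_le_pow_left h1 _) (Nat.pow_le_pow_left h3 _)
  · intro n hn m hm hnm
    rw [Finset.mem_coe, Finset.mem_filter, Finset.mem_Icc] at hn hm
    obtain ⟨h1, h2⟩ := two_three hnm
    have hn0 : (n : ℚ) ≠ 0 := by
      have := hn.1.1
      positivity
    have hm0 : (m : ℚ) ≠ 0 := by
      have := hm.1.1
      positivity
    have hx : (n : ℚ) * (m : ℚ)⁻¹ ∈ SA b :=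
      SA_mul b _ (hmem n hn.1.1 hn.2) _ (SA_inv b _ (hmem m hm.1.1 hm.2))
    have h3 := hsep _ hx
      (by rw [padicValRat.mul hn0 (inv_ne_zero hm0), padicValRat.inv, padicValRat.of_nat,
            padicValRat.of_nat, h1]; ring)
      (by rw [padicValRat.mul hn0 (inv_ne_zero hm0), padicValRat.inv, padicValRat.of_nat,
            padicValRat.of_nat, h2]; ring)
    have h4 : (n : ℚ) = m := by
      field_simp at h3
      exact h3
    exact_mod_cast h4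

open Classical in
theorem count_b (b : ℝ) (hb : Transcendental ℚ b) (N : ℕ) :
    ((Finset.Icc 2 N).filter (fun n : ℕ => IsAlgebraic ℚ ((n : ℝ) ^ b))).card ≤
      ((Finset.Icc 2 N).filter (fun m : ℕ => ∃ i j : ℕ, m = 2 ^ i * 3 ^ j)).card := by
  obtain ⟨p, q, hp, hq, hne, hsep⟩ := SA_two_val b hb
  rcases lt_or_gt_of_ne hne with h | h
  · exact count_lt b p q hp hq h hsep N
  · exact count_lt b q p hq hp h (fun x hx h1 h2 => hsep x hx h2 h1) N

open Classical in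
theorem count_pi (N : ℕ) :
    ((Finset.Icc 2 N).filter (fun n : ℕ => IsAlgebraic ℚ ((n : ℝ) ^ Real.pi))).card ≤
      Nat.log 2 N := by
  rcases pi_struct with h | ⟨c, hc, h⟩
  · rw [Finset.filter_false_of_mem]
    · simp
    · intro n hn
      rw [Finset.mem_Icc] at hn
      exact h n hn.1
  · have hsub : ((Finset.Icc 2 N).filter (fun n : ℕ => IsAlgebraic ℚ ((n : ℝ) ^ Real.pi))) ⊆
        (Finset.Icc 1 (Nat.log 2 N)).image (fun k => c ^ k) := by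
      intro n hn
      rw [Finset.mem_filter, Finset.mem_Icc] at hn
      obtain ⟨k, hk, rfl⟩ := (h n hn.1.1).mp hn.2
      rw [Finset.mem_image]
      refine ⟨k, ?_, rfl⟩
      rw [Finset.mem_Icc]
      refine ⟨hk, ?_⟩
      have h1 : 2 ^ k ≤ N := (Nat.pow_le_pow_left hc k).trans hn.1.2
      exact Nat.le_log_of_pow_le (by norm_num) h1
    refine (Finset.card_le_card hsub).trans (Finset.card_image_le.trans ?_)
    simp

open Classical in
theorem count_both (N : ℕ) :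
    ((Finset.Icc 2 N).filter (fun n : ℕ => IsAlgebraic ℚ ((n : ℝ) ^ Real.pi) ∨
      IsAlgebraic ℚ ((n : ℝ) ^ Real.exp 1))).card ≤
      ((Finset.Icc 2 N).filter (fun m : ℕ => ∃ i j : ℕ, m = 2 ^ i * 3 ^ j)).card +
        Nat.log 2 N := by
  rw [Finset.filter_or]
  refine (Finset.card_union_le _ _).trans ?_
  rw [add_comm]
  exact Nat.add_le_add (count_b _ e_trans N) (count_pi N)

end Pool.Agent.Q258.PiE
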